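import Pool.Agent.BCS.Stmts

/-!
# Row TGT of squad BCS (MP_fb4904_gt): the target function
-/

set_option autoImplicit false

noncomputable section

open scoped ContDiff Topology
open Set MeasureTheory

namespace Pool.Agent.BCS.H81

open Pool.Agent.BCS

/-- **TGT** -/
theorem tgt : TgtStmt := by
  intro p hp hper
  have hpc : Continuous p := hp.continuous
  have hE : Continuous fun θ => Real.exp (p θ) := Real.continuous_exp.comp hpc
  have hpi : (0 : ℝ) < 2 * Real.pi := by positivity
  obtain ⟨s, hs⟩ : ∃ s : ℝ → ℝ, s = fun θ => ∫ x in (0 : ℝ)..θ, Real.exp (p x) := ⟨_, rfl⟩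
  obtain ⟨L, hL⟩ : ∃ L : ℝ, L = ∫ θ in (0 : ℝ)..(2 * Real.pi), Real.exp (p θ) := ⟨_, rfl⟩
  have hL0 : 0 < L := by
    rw [hL]
    exact intervalIntegral.intervalIntegral_pos_of_pos (hE.intervalIntegrable _ _)
      (fun x => Real.exp_pos _) hpi
  have hsd : ∀ θ, HasDerivAt s (Real.exp (p θ)) θ := by
    intro θ
    rw [hs]
    exact (hE.integral_hasStrictDerivAt 0 θ).hasDerivAt
  have hs0 : s 0 = 0 := by
    rw [hs]
    exact intervalIntegral.integral_same
  have hs2 : s (2 * Real.pi) = L := by rw [hs, hL]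
  have hsp : ∀ θ, s (θ + 2 * Real.pi) = s θ + L := by
    intro θ
    have hperE : Function.Periodic (fun θ => Real.exp (p θ)) (2 * Real.pi) := fun θ => by
      show Real.exp (p (θ + 2 * Real.pi)) = Real.exp (p θ)
      rw [hper]
    have h1 := hperE.intervalIntegral_add_eq θ 0
    rw [zero_add] at h1
    have h2 := intervalIntegral.integral_add_adjacent_intervals
      (hE.intervalIntegrable (μ := volume) 0 θ)
      (hE.intervalIntegrable (μ := volume) θ (θ + 2 * Real.pi))
    rw [hs, hL]
    show (∫ x in (0 : ℝ)..(θ + 2 * Real.pi), Real.exp (p x)) = _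
    rw [← h2, h1]
  have hpd : ∀ θ, HasDerivAt p (deriv p θ) θ := fun θ =>
    (hp.differentiable (by norm_num)).differentiableAt.hasDerivAt
  have hsC : ContDiff ℝ 1 s := by
    rw [contDiff_one_iff_deriv]
    refine ⟨fun θ => (hsd θ).differentiableAt, ?_⟩
    have : deriv s = fun θ => Real.exp (p θ) := funext fun θ => (hsd θ).deriv
    rw [this]
    exact hE
  obtain ⟨X, hX⟩ : ∃ X : ℝ → ℝ,
      X = fun θ => Real.exp (p θ / 2) * Real.cos (Real.pi * s θ / L) := ⟨_, rfl⟩
  have hXv : ∀ θ, X θ = Real.exp (p θ / 2) * Real.cos (Real.pi * s θ / L) := fun θ => by rw [hX]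
  have hXd : ∀ θ, HasDerivAt X (Real.exp (p θ / 2) * (deriv p θ / 2) *
      Real.cos (Real.pi * s θ / L) + Real.exp (p θ / 2) *
        (-Real.sin (Real.pi * s θ / L) * (Real.pi * Real.exp (p θ) / L))) θ := by
    intro θ
    rw [hX]
    exact ((hpd θ).div_const 2).exp.mul ((((hsd θ).const_mul Real.pi).div_const L).cos)
  have he2 : ∀ θ, Real.exp (p θ / 2) ^ 2 = Real.exp (p θ) := by
    intro θ
    rw [← Real.exp_nat_mul]
    congr 1
    push_cast
    ring
  have hZ : ∀ θ, Zf p X θ =
      -(2 * Real.pi / L) * (Real.exp (p θ / 2) * Real.sin (Real.pi * s θ / L)) := by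
    intro θ
    unfold Zf
    rw [(hXd θ).deriv, hXv]
    have h1 : Real.exp (-p θ) * Real.exp (p θ) = 1 := by
      rw [← Real.exp_add, neg_add_cancel, Real.exp_zero]
    have h2 : Real.exp (-p θ) * (2 * (Real.exp (p θ / 2) * (deriv p θ / 2) *
        Real.cos (Real.pi * s θ / L) + Real.exp (p θ / 2) *
          (-Real.sin (Real.pi * s θ / L) * (Real.pi * Real.exp (p θ) / L))) -
        deriv p θ * (Real.exp (p θ / 2) * Real.cos (Real.pi * s θ / L))) =
        (Real.exp (-p θ) * Real.exp (p θ)) * (-(2 * Real.pi / L) *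
          (Real.exp (p θ / 2) * Real.sin (Real.pi * s θ / L))) := by
      field_simp
      ring
    rw [h2, h1, one_mul]
  refine ⟨X, ?_, ?_, ?_, ?_⟩
  · rw [hX]
    exact (hp.div_const 2).exp.mul (((contDiff_const.mul hsC).div_const L).cos)
  · intro θ
    rw [hXv, hXv, hper, hsp]
    have h1 : Real.pi * (s θ + L) / L = Real.pi * s θ / L + Real.pi := by
      field_simp
    rw [h1, Real.cos_add_pi]
    ring
  · have hF : ∀ θ, HasDerivAt (fun θ => s θ / 2 +
        L / (4 * Real.pi) * Real.sin (2 * (Real.pi * s θ / L))) (X θ ^ 2) θ := by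
      intro θ
      have h1 := ((hsd θ).div_const 2).add
        ((((((hsd θ).const_mul Real.pi).div_const L).const_mul 2).sin).const_mul
          (L / (4 * Real.pi)))
      refine h1.congr_deriv ?_
      rw [hXv, mul_pow, he2, Real.cos_sq]
      have hpi0 : Real.pi ≠ 0 := Real.pi_ne_zero
      field_simp
      ring
    have h2 := intervalIntegral.integral_eq_sub_of_hasDerivAt (a := 0) (b := 2 * Real.pi)
      (fun θ _ => hF θ) (by
        refine Continuous.intervalIntegrable ?_ _ _
        have : Continuous X := continuous_iff_continuousAt.mpr fun θ => (hXd θ).continuousAt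
        exact this.pow 2)
    rw [h2, hs0, hs2, ← hL]
    have h3 : 2 * (Real.pi * L / L) = 2 * Real.pi := by field_simp
    rw [h3, Real.sin_two_pi]
    simp
  · have hF : ∀ θ, HasDerivAt (fun θ => (2 * Real.pi / L) ^ 2 * (s θ / 2 -
        L / (4 * Real.pi) * Real.sin (2 * (Real.pi * s θ / L)))) (Zf p X θ ^ 2) θ := by
      intro θ
      have h1 := (((hsd θ).div_const 2).sub
        ((((((hsd θ).const_mul Real.pi).div_const L).const_mul 2).sin).const_mul
          (L / (4 * Real.pi)))).const_mul ((2 * Real.pi / L) ^ 2)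
      refine h1.congr_deriv ?_
      rw [hZ, mul_pow, mul_pow, he2, Real.sin_sq_eq_half_sub]
      have hpi0 : Real.pi ≠ 0 := Real.pi_ne_zero
      field_simp
      ring
    have h2 := intervalIntegral.integral_eq_sub_of_hasDerivAt (a := 0) (b := 2 * Real.pi)
      (fun θ _ => hF θ) (by
        refine Continuous.intervalIntegrable ?_ _ _
        have hsc : Continuous s := hsC.continuous
        have : (fun θ => Zf p X θ ^ 2) = fun θ => (-(2 * Real.pi / L) *
            (Real.exp (p θ / 2) * Real.sin (Real.pi * s θ / L))) ^ 2 := by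
          funext θ
          rw [hZ]
        rw [this]
        fun_prop)
    rw [h2, hs0, hs2, ← hL]
    have h3 : 2 * (Real.pi * L / L) = 2 * Real.pi := by field_simp
    rw [h3, Real.sin_two_pi]
    have h4 : 2 * (Real.pi * 0 / L) = 0 := by simp
    rw [h4, Real.sin_zero]
    field_simp
    ring

end Pool.Agent.BCS.H81
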